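import Pool.Agent.Run7.h67.KF.Base

/-!
# KF piece LIM (helper67)
-/

set_option autoImplicit false

namespace Run7.h67.KF

open Run7.h523.KF MeasureTheory Set Filter Topology

theorem sb_dist (j : ℕ) (z : ℤ) : |z - sb j z| ≤ 2 := by
  unfold sb
  split_ifs <;> rw [abs_le] <;> constructor <;> omega

section
set_option linter.unusedSectionVars false
variable {P : Type} [Fintype P]

theorem Qb_eq (M : ℕ) : Qb P M = Set.pi univ fun _ : P => Ico (0 : ℝ) (1 / M) := by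
  ext t
  simp [Qb, Set.mem_pi]

theorem Qb_meas (M : ℕ) : MeasurableSet (Qb P M) := by
  rw [Qb_eq]
  exact MeasurableSet.univ_pi fun _ => measurableSet_Ico

theorem Qb_sub (M : ℕ) : Qb P M ⊆ Set.pi univ fun _ : P => Icc (0 : ℝ) (1 / M) := by
  rw [Qb_eq]
  exact Set.pi_mono fun _ _ => Ico_subset_Icc_self

theorem intQ (M : ℕ) {G : (P → ℝ) → ℝ} (hG : Continuous G) : IntegrableOn G (Qb P M) :=
  (hG.continuousOn.integrableOn_compact (isCompact_univ_pi fun _ => isCompact_Icc)).mono_set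
    (Qb_sub M)

theorem Qb_vol (M : ℕ) : volume.real (Qb P M) = (1 / (M : ℝ)) ^ Fintype.card P := by
  rw [Qb_eq, Measure.real, Real.volume_pi_Ico_toReal]
  · simp
  · intro _
    positivity

theorem Qb_lt (M : ℕ) : volume (Qb P M) < ⊤ :=
  lt_of_le_of_lt (measure_mono (Qb_sub M))
    (isCompact_univ_pi fun _ => isCompact_Icc).measure_lt_top

theorem continuous_pos (M : ℕ) (x : P → ℤ) : Continuous fun t : P → ℝ => pos M x t := by
  unfold pos
  fun_prop

theorem Qb_norm {M : ℕ} {t t' : P → ℝ} (ht : t ∈ Qb P M) (ht' : t' ∈ Qb P M) (x : P → ℤ) :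
    ‖pos M x t - pos M x t'‖ ≤ 1 / M := by
  rw [pi_norm_le_iff_of_nonneg (by positivity)]
  intro v
  have h1 := ht v
  have h2 := ht' v
  have h3 : (pos M x t - pos M x t') v = t v - t' v := by
    simp [pos]
  rw [h3, Real.norm_eq_abs, abs_le]
  constructor <;> linarith [h1.1, h1.2, h2.1, h2.2]

theorem sx_norm {M : ℕ} (hM : 1 ≤ M) (j : ℕ) (x : P → ℤ) (t : P → ℝ) :
    ‖pos M x t - pos M (sx j x) t‖ ≤ 1 / M := by
  have hM0 : (0 : ℝ) < M := by exact_mod_cast hM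
  rw [pi_norm_le_iff_of_nonneg (by positivity)]
  intro v
  have h3 : (pos M x t - pos M (sx j x) t) v = ((x v - sb j (x v) : ℤ) : ℝ) / (2 * M) := by
    simp only [pos, sx, Pi.sub_apply]
    push_cast
    ring
  have h4 : |((x v - sb j (x v) : ℤ) : ℝ)| ≤ 2 := by
    have := sb_dist j (x v)
    exact_mod_cast this
  rw [h3, Real.norm_eq_abs, abs_div, abs_of_pos (by positivity : (0 : ℝ) < 2 * M),
    div_le_div_iff₀ (by positivity) hM0]
  nlinarith

end

open Classical in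
theorem key (hDISC : S_DISC) (hMOV : S_MOV) (hENE : S_ENE) (hCEL1 : S_CEL1)
    {P : Type} [Fintype P] [DecidableEq P] (R : P × Bool → P × Bool → Prop) (M : ℕ) (hM : 1 ≤ M)
    (W : ℝ → ℝ) (hWc : Continuous W) (hW0 : ∀ y, 0 ≤ W y) (hWe : ∀ y, W (-y) = W y)
    (hW1 : ∀ y, W y ≤ 1) (h : ℕ → ℝ) (γ : ℝ) (hγ : 0 < γ)
    (hS : Sup M (fun j => W ((j : ℝ) / M)) h γ) (hne : (Om R M).Nonempty)
    (F : (P → ℝ) → ℝ) (hF : ContDiff ℝ 1 F) (B : ℝ) (hB0 : 0 ≤ B)
    (hB : ∀ y ∈ KK R, ∀ z ∈ KK R, |F y - F z| ≤ B * ‖y - z‖)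
    (ε : ℝ) (hε : 0 ≤ ε) (hω : ∀ y z : ℝ, |y| ≤ 1 → |z| ≤ 1 → |y - z| ≤ 1 / M → W z ≤ W y + ε)
    (C : ℝ)
    (hC : (((Om R M).filter fun x => ∃ v w, v ≠ w ∧ abs (|x v| - |x w|) ≤ 2).card : ℝ) * M ≤
      C * (M : ℝ) ^ Fintype.card P) :
    (∑ x ∈ Om R M, ∫ t in Qb P M, F (pos M x t) ^ 2) -
      (|∑ x ∈ Om R M, ∫ t in Qb P M, F (pos M x t)| +
        (∑ _x ∈ Om R M, ∫ _t in Qb P M, (1 : ℝ)) * (B / M)) ^ 2 /
        (∑ _x ∈ Om R M, ∫ _t in Qb P M, (1 : ℝ)) ≤
    1 / (2 * (M : ℝ) ^ 2 * γ) *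
      ((∑ v, ∫ y in KK R, (W (y v) + ε) * (fderiv ℝ F y (Pi.single v 1)) ^ 2) +
        B ^ 2 * (Fintype.card P : ℝ) ^ 2 * C / 2 * (1 / M)) := by
  have hM0 : (0 : ℝ) < M := by exact_mod_cast hM
  have hFc : Continuous F := hF.continuous
  set N : ℝ := ((Om R M).card : ℝ) with hN
  have hN0 : 0 < N := by rw [hN]; exact_mod_cast hne.card_pos
  set q : ℝ := volume.real (Qb P M) with hq
  have hq' : q = (1 / (M : ℝ)) ^ Fintype.card P := Qb_vol M
  have hq0 : 0 < q := by rw [hq']; positivity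
  have hVM : (∑ _x ∈ Om R M, ∫ _t in Qb P M, (1 : ℝ)) = N * q := by
    rw [Finset.sum_const, setIntegral_const]
    simp [hN, hq]
  rw [hVM]
  have hcx : ∀ x : P → ℤ, Continuous fun t : P → ℝ => F (pos M x t) := fun x =>
    hFc.comp (continuous_pos M x)
  set S : (P → ℝ) → ℝ := fun t => ∑ x ∈ Om R M, F (pos M x t) with hSdef
  have hSc : Continuous S := continuous_finsetSum _ fun x _ => hcx x
  set Bd : ℝ := (((Om R M).filter fun x => ∃ v w, v ≠ w ∧ abs (|x v| - |x w|) ≤ 2).card : ℝ)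
    with hBd
  -- pointwise inequality
  have hpt : ∀ t ∈ Qb P M, (∑ x ∈ Om R M, F (pos M x t) ^ 2) - S t ^ 2 / N ≤
      1 / (4 * γ) * (2 * ∑ v : P, ∑ x ∈ (Om R M).filter (fun x => rt v x ∈ Om R M),
        W ((((x v + 1).natAbs / 2 : ℕ) : ℝ) / M) * (F (pos M (rt v x) t) - F (pos M x t)) ^ 2 +
        (B / M) ^ 2 * (Fintype.card P : ℝ) ^ 2 * Bd) := by
    intro t ht
    have h1 := hDISC P R M _ h γ hγ hS hne (fun x => F (pos M x t))
    have h2 := hMOV P R M (fun x => F (pos M x t)) (fun j => W ((j : ℝ) / M)) (B / M)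
      (fun j => ⟨hW0 _, hW1 _⟩) (by positivity) (by
        intro j hj x hx hx'
        have h3 := hB _ (hCEL1 P R M hM x hx t ht) _ (hCEL1 P R M hM _ hx' t ht)
        refine h3.trans ?_
        rw [div_eq_mul_one_div]
        exact mul_le_mul_of_nonneg_left (sx_norm hM j x t) hB0)
    refine h1.trans ?_
    exact mul_le_mul_of_nonneg_left h2 (by positivity)
  -- integrate
  have hint1 : IntegrableOn (fun t => (∑ x ∈ Om R M, F (pos M x t) ^ 2) - S t ^ 2 / N) (Qb P M) := by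
    refine intQ M ?_
    exact (continuous_finsetSum _ fun x _ => (hcx x).pow 2).sub ((hSc.pow 2).div_const _)
  have hcv : ∀ v : P, Continuous fun t : P → ℝ =>
      ∑ x ∈ (Om R M).filter (fun x => rt v x ∈ Om R M),
        W ((((x v + 1).natAbs / 2 : ℕ) : ℝ) / M) * (F (pos M (rt v x) t) - F (pos M x t)) ^ 2 :=
    fun v => continuous_finsetSum _ fun x _ => continuous_const.mul
      (((hcx _).sub (hcx x)).pow 2)
  have hint2 : IntegrableOn (fun t => 1 / (4 * γ) * (2 * ∑ v : P,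
        ∑ x ∈ (Om R M).filter (fun x => rt v x ∈ Om R M),
        W ((((x v + 1).natAbs / 2 : ℕ) : ℝ) / M) * (F (pos M (rt v x) t) - F (pos M x t)) ^ 2 +
        (B / M) ^ 2 * (Fintype.card P : ℝ) ^ 2 * Bd)) (Qb P M) := by
    refine intQ M ?_
    exact continuous_const.mul ((continuous_const.mul
      (continuous_finsetSum _ fun v _ => hcv v)).add continuous_const)
  have hI := setIntegral_mono_on hint1 hint2 (Qb_meas M) hpt
  have hL : ∫ t in Qb P M, ((∑ x ∈ Om R M, F (pos M x t) ^ 2) - S t ^ 2 / N) =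
      (∑ x ∈ Om R M, ∫ t in Qb P M, F (pos M x t) ^ 2) - (∫ t in Qb P M, S t ^ 2) / N := by
    rw [integral_sub, integral_finsetSum, integral_div]
    · intro x _
      exact intQ M ((hcx x).pow 2)
    · exact intQ M (continuous_finsetSum _ fun x _ => (hcx x).pow 2)
    · exact intQ M ((hSc.pow 2).div_const _)
  have hRR : ∫ t in Qb P M, (1 / (4 * γ) * (2 * ∑ v : P,
        ∑ x ∈ (Om R M).filter (fun x => rt v x ∈ Om R M),
        W ((((x v + 1).natAbs / 2 : ℕ) : ℝ) / M) * (F (pos M (rt v x) t) - F (pos M x t)) ^ 2 +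
        (B / M) ^ 2 * (Fintype.card P : ℝ) ^ 2 * Bd)) =
      1 / (4 * γ) * (2 * ∑ v : P,
        ∑ x ∈ (Om R M).filter (fun x => rt v x ∈ Om R M),
        W ((((x v + 1).natAbs / 2 : ℕ) : ℝ) / M) *
          (∫ t in Qb P M, (F (pos M (rt v x) t) - F (pos M x t)) ^ 2) +
        (B / M) ^ 2 * (Fintype.card P : ℝ) ^ 2 * Bd * q) := by
    rw [integral_const_mul, integral_add, integral_const_mul, integral_finsetSum, setIntegral_const]
    · congr 2
      · congr 1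
        refine Finset.sum_congr rfl fun v _ => ?_
        rw [integral_finsetSum]
        · refine Finset.sum_congr rfl fun x _ => ?_
          rw [integral_const_mul]
        · intro x _
          exact intQ M (continuous_const.mul (((hcx _).sub (hcx x)).pow 2))
      · simp only [smul_eq_mul, hq]
        ring
    · intro v _
      exact intQ M (hcv v)
    · exact intQ M (continuous_const.mul (continuous_finsetSum _ fun v _ => hcv v))
    · exact intQ M continuous_const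
  rw [hL, hRR] at hI
  -- the bound for the integral of the square of S
  set BM : ℝ := ∑ x ∈ Om R M, ∫ t in Qb P M, F (pos M x t) with hBM
  have hBM' : ∫ t in Qb P M, S t = BM := by
    rw [hSdef, hBM]
    exact integral_finsetSum _ fun x _ => intQ M (hcx x)
  have hSd : ∀ t ∈ Qb P M, ∀ t' ∈ Qb P M, |S t - S t'| ≤ N * (B / M) := by
    intro t ht t' ht'
    have h1 : S t - S t' = ∑ x ∈ Om R M, (F (pos M x t) - F (pos M x t')) := by
      rw [Finset.sum_sub_distrib]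
    rw [h1]
    refine (Finset.abs_sum_le_sum_abs _ _).trans ?_
    have h2 : ∀ x ∈ Om R M, |F (pos M x t) - F (pos M x t')| ≤ B / M := by
      intro x hx
      refine (hB _ (hCEL1 P R M hM x hx t ht) _ (hCEL1 P R M hM x hx t' ht')).trans ?_
      rw [div_eq_mul_one_div]
      exact mul_le_mul_of_nonneg_left (Qb_norm ht ht' x) hB0
    refine (Finset.sum_le_card_nsmul _ _ _ h2).trans ?_
    rw [nsmul_eq_mul]
  have hSt : ∀ t ∈ Qb P M, |S t| ≤ |BM| / q + N * (B / M) := by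
    intro t ht
    have h1 : ‖∫ t' in Qb P M, (S t - S t')‖ ≤ (N * (B / M)) * volume.real (Qb P M) :=
      norm_setIntegral_le_of_norm_le_const (Qb_lt M) fun t' ht' => hSd t ht t' ht'
    rw [integral_sub (intQ M continuous_const) (intQ M hSc), setIntegral_const, hBM',
      Real.norm_eq_abs, ← hq, smul_eq_mul] at h1
    have h2 : q * |S t| ≤ |BM| + N * (B / M) * q := by
      have h3 : |q * S t| ≤ |q * S t - BM| + |BM| := by
        calc |q * S t| = |(q * S t - BM) + BM| := by ring_nf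
          _ ≤ _ := abs_add_le _ _
      rw [abs_mul, abs_of_pos hq0] at h3
      linarith
    rw [← mul_le_mul_iff_right₀ hq0]
    calc q * |S t| ≤ |BM| + N * (B / M) * q := h2
      _ = q * (|BM| / q + N * (B / M)) := by field_simp
  have hSS : ∫ t in Qb P M, S t ^ 2 ≤ (|BM| / q + N * (B / M)) ^ 2 * q := by
    have h1 : ∫ t in Qb P M, S t ^ 2 ≤ ∫ t in Qb P M, (|BM| / q + N * (B / M)) ^ 2 := by
      refine setIntegral_mono_on (intQ M (hSc.pow 2)) (intQ M continuous_const) (Qb_meas M) ?_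
      intro t ht
      rw [← sq_abs (S t)]
      exact pow_le_pow_left₀ (abs_nonneg _) (hSt t ht) 2
    rw [setIntegral_const, smul_eq_mul, ← hq] at h1
    linarith
  have hleft : (|BM| + N * q * (B / M)) ^ 2 / (N * q) = (|BM| / q + N * (B / M)) ^ 2 * q / N := by
    field_simp
  -- the energy
  have hEn : ∀ v : P, ∑ x ∈ (Om R M).filter (fun x => rt v x ∈ Om R M),
        W ((((x v + 1).natAbs / 2 : ℕ) : ℝ) / M) *
          (∫ t in Qb P M, (F (pos M (rt v x) t) - F (pos M x t)) ^ 2) ≤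
      1 / (M : ℝ) ^ 2 * ∫ y in KK R, (W (y v) + ε) * (fderiv ℝ F y (Pi.single v 1)) ^ 2 :=
    fun v => hENE P R M hM v F W ε hF hWc hW0 hWe hε hω
  have hEn' := Finset.sum_le_sum fun v (_ : v ∈ (Finset.univ : Finset P)) => hEn v
  rw [← Finset.mul_sum] at hEn'
  have hbad : Bd * q ≤ C * (1 / M) := by
    have h1 : (M : ℝ) ^ Fintype.card P * q = 1 := by
      rw [hq', ← mul_pow]
      rw [mul_one_div_cancel hM0.ne', one_pow]
    have h2 : Bd * M * q ≤ C * (M : ℝ) ^ Fintype.card P * q :=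
      mul_le_mul_of_nonneg_right hC hq0.le
    rw [mul_assoc C, h1, mul_one] at h2
    rw [mul_one_div, le_div_iff₀ hM0]
    linarith
  rw [hleft]
  have hA : (∫ t in Qb P M, S t ^ 2) / N ≤ (|BM| / q + N * (B / M)) ^ 2 * q / N :=
    div_le_div_of_nonneg_right hSS hN0.le
  set E : ℝ := ∑ v, ∫ y in KK R, (W (y v) + ε) * (fderiv ℝ F y (Pi.single v 1)) ^ 2 with hE
  set T : ℝ := ∑ v : P, ∑ x ∈ (Om R M).filter (fun x => rt v x ∈ Om R M),
        W ((((x v + 1).natAbs / 2 : ℕ) : ℝ) / M) *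
          (∫ t in Qb P M, (F (pos M (rt v x) t) - F (pos M x t)) ^ 2) with hT
  have hfin : 1 / (4 * γ) * (2 * T + (B / M) ^ 2 * (Fintype.card P : ℝ) ^ 2 * Bd * q) ≤
      1 / (2 * (M : ℝ) ^ 2 * γ) *
      (E + B ^ 2 * (Fintype.card P : ℝ) ^ 2 * C / 2 * (1 / M)) := by
    have h1 : 1 / (2 * (M : ℝ) ^ 2 * γ) *
        (E + B ^ 2 * (Fintype.card P : ℝ) ^ 2 * C / 2 * (1 / M)) =
        1 / (4 * γ) * (2 * (1 / (M : ℝ) ^ 2 * E) +
          (B / M) ^ 2 * (Fintype.card P : ℝ) ^ 2 * (C * (1 / M))) := by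
      field_simp
      ring
    rw [h1]
    refine mul_le_mul_of_nonneg_left (add_le_add ?_ ?_) (by positivity)
    · linarith
    · rw [mul_assoc _ Bd q]
      exact mul_le_mul_of_nonneg_left hbad (by positivity)
  linarith

/-- the master inequality, explicit form -/
theorem lim_aux (hDISC : S_DISC) (hMOV : S_MOV) (hCNT : S_CNT) (hENE : S_ENE) (hCEL1 : S_CEL1)
    (hCEL3 : S_CEL3) {P : Type} [Fintype P] [DecidableEq P] (R : P × Bool → P × Bool → Prop)
    (W : ℝ → ℝ) (lam : ℝ) (hvol : 0 < volume (KK R)) (hWc : Continuous W) (hW0 : ∀ y, 0 ≤ W y)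
    (hWe : ∀ y, W (-y) = W y) (hW1 : ∀ y, W y ≤ 1) (hlam : 0 < lam)
    (M₀ : ℕ) (h : ℕ → ℕ → ℝ) (γ : ℕ → ℝ)
    (hS : ∀ M, M₀ ≤ M → 0 < γ M ∧ Sup M (fun j => W ((j : ℝ) / M)) (h M) (γ M))
    (hlim : Tendsto (fun M : ℕ => 2 * (M : ℝ) ^ 2 * γ M) atTop (𝓝 lam))
    (F : (P → ℝ) → ℝ) (hF : ContDiff ℝ 1 F) :
    (∫ y in KK R, F y ^ 2) - (∫ y in KK R, F y) ^ 2 / (volume (KK R)).toReal ≤
      1 / lam * ∑ v : P, ∫ y in KK R, W (y v) * (fderiv ℝ F y (Pi.single v 1)) ^ 2 := by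
  classical
  have hFc := hF.continuous
  have hF'c : Continuous (fderiv ℝ F) := hF.continuous_fderiv (by norm_num)
  obtain ⟨B0, hB0⟩ := (isCompact_univ_pi fun _ : P => isCompact_Icc (a := (-1 : ℝ)) (b := 1)
    ).exists_bound_of_continuousOn hF'c.continuousOn
  set B := max B0 0 with hBdef
  have hBn : 0 ≤ B := le_max_right _ _
  have hB : ∀ y ∈ KK R, ∀ z ∈ KK R, |F y - F z| ≤ B * ‖y - z‖ := by
    intro y hy z hz
    have h1 := Convex.norm_image_sub_le_of_norm_fderiv_le (𝕜 := ℝ) (f := F) (C := B)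
      (s := Set.pi univ fun _ : P => Icc (-1 : ℝ) 1) (x := z) (y := y)
      (fun x _ => (hF.differentiable (by norm_num)) x)
      (fun x hx => (hB0 x hx).trans (le_max_left _ _))
      (convex_pi fun _ _ => convex_Icc _ _) (KK_sub R hz) (KK_sub R hy)
    simpa [Real.norm_eq_abs] using h1
  obtain ⟨C, hC0, hC⟩ := hCNT P R
  set V := (volume (KK R)).toReal with hV
  have hV0 : 0 < V := ENNReal.toReal_pos hvol.ne' (KK_vol_lt R).ne
  have hVlim : Tendsto (fun M : ℕ => ∑ _x ∈ Om R M, ∫ _t in Qb P M, (1 : ℝ)) atTop (𝓝 V) := by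
    have h1 := hCEL3 P R (fun _ => (1 : ℝ)) continuous_const
    have h2 : ∫ _y in KK R, (1 : ℝ) = V := by
      rw [setIntegral_const]
      simp [hV, Measure.real]
    rwa [h2] at h1
  have hA := hCEL3 P R (fun y => F y ^ 2) (hFc.pow 2)
  have hBl := hCEL3 P R F hFc
  have hinv : Tendsto (fun M : ℕ => 1 / (M : ℝ)) atTop (𝓝 0) := tendsto_one_div_atTop_nhds_zero_nat
  have hBM : Tendsto (fun M : ℕ => B / (M : ℝ)) atTop (𝓝 0) := by
    have := hinv.const_mul B
    rw [mul_zero] at this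
    refine this.congr fun M => ?_
    rw [mul_one_div]
  have hε : ∀ ε : ℝ, 0 < ε → (∫ y in KK R, F y ^ 2) - (∫ y in KK R, F y) ^ 2 / V ≤
      1 / lam * ∑ v : P, ∫ y in KK R, (W (y v) + ε) * (fderiv ℝ F y (Pi.single v 1)) ^ 2 := by
    intro ε hε
    have hu := isCompact_Icc.uniformContinuousOn_of_continuous
      (s := Icc (-1 : ℝ) 1) hWc.continuousOn
    rw [Metric.uniformContinuousOn_iff] at hu
    obtain ⟨δ, hδ, hu⟩ := hu ε hε
    have hL : Tendsto (fun M : ℕ => (∑ x ∈ Om R M, ∫ t in Qb P M, F (pos M x t) ^ 2) -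
        (|∑ x ∈ Om R M, ∫ t in Qb P M, F (pos M x t)| +
        (∑ _x ∈ Om R M, ∫ _t in Qb P M, (1 : ℝ)) * (B / M)) ^ 2 /
        (∑ _x ∈ Om R M, ∫ _t in Qb P M, (1 : ℝ))) atTop
        (𝓝 ((∫ y in KK R, F y ^ 2) - (|∫ y in KK R, F y| + V * 0) ^ 2 / V)) :=
      hA.sub (((hBl.abs.add (hVlim.mul hBM)).pow 2).div hVlim hV0.ne')
    have hR : Tendsto (fun M : ℕ => 1 / (2 * (M : ℝ) ^ 2 * γ M) *
        ((∑ v, ∫ y in KK R, (W (y v) + ε) * (fderiv ℝ F y (Pi.single v 1)) ^ 2) +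
        B ^ 2 * (Fintype.card P : ℝ) ^ 2 * C / 2 * (1 / M))) atTop
        (𝓝 (1 / lam * ((∑ v, ∫ y in KK R, (W (y v) + ε) *
          (fderiv ℝ F y (Pi.single v 1)) ^ 2) + B ^ 2 * (Fintype.card P : ℝ) ^ 2 * C / 2 * 0))) :=
      (tendsto_const_nhds.div hlim hlam.ne').mul (tendsto_const_nhds.add (hinv.const_mul _))
    have hev : ∀ᶠ M : ℕ in atTop, (∑ x ∈ Om R M, ∫ t in Qb P M, F (pos M x t) ^ 2) -
        (|∑ x ∈ Om R M, ∫ t in Qb P M, F (pos M x t)| +
        (∑ _x ∈ Om R M, ∫ _t in Qb P M, (1 : ℝ)) * (B / M)) ^ 2 /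
        (∑ _x ∈ Om R M, ∫ _t in Qb P M, (1 : ℝ)) ≤ 1 / (2 * (M : ℝ) ^ 2 * γ M) *
        ((∑ v, ∫ y in KK R, (W (y v) + ε) * (fderiv ℝ F y (Pi.single v 1)) ^ 2) +
        B ^ 2 * (Fintype.card P : ℝ) ^ 2 * C / 2 * (1 / M)) := by
      filter_upwards [eventually_ge_atTop M₀, eventually_ge_atTop 1,
        hVlim.eventually (lt_mem_nhds hV0), hinv.eventually (gt_mem_nhds hδ)] with M h1 h2 h3 h4
      have hne : (Om R M).Nonempty := by
        by_contra hcon
        rw [Finset.not_nonempty_iff_eq_empty] at hcon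
        rw [hcon] at h3
        simp at h3
      refine key hDISC hMOV hENE hCEL1 R M h2 W hWc hW0 hWe hW1 (h M) (γ M) (hS M h1).1
        (hS M h1).2 hne F hF B hBn hB ε hε.le ?_ C ?_
      · intro y z hy hz hyz
        have h5 := hu y (abs_le.1 hy) z (abs_le.1 hz) (by
          rw [Real.dist_eq]; exact lt_of_le_of_lt hyz h4)
        rw [Real.dist_eq, abs_lt] at h5
        linarith [h5.1]
      · convert hC M using 6
    have := le_of_tendsto_of_tendsto hL hR hev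
    simpa only [mul_zero, add_zero, sq_abs] using this
  -- ε → 0
  have hcd : ∀ v : P, Continuous fun y : P → ℝ => (fderiv ℝ F y (Pi.single v 1)) ^ 2 := fun v =>
    (hF'c.clm_apply continuous_const).pow 2
  have hsplit : ∀ ε : ℝ, ∑ v : P, ∫ y in KK R, (W (y v) + ε) * (fderiv ℝ F y (Pi.single v 1)) ^ 2 =
      (∑ v : P, ∫ y in KK R, W (y v) * (fderiv ℝ F y (Pi.single v 1)) ^ 2) +
      ε * ∑ v : P, ∫ y in KK R, (fderiv ℝ F y (Pi.single v 1)) ^ 2 := by
    intro ε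
    rw [Finset.mul_sum, ← Finset.sum_add_distrib]
    refine Finset.sum_congr rfl fun v _ => ?_
    rw [← integral_const_mul, ← integral_add]
    · refine setIntegral_congr_fun (KK_meas R) fun y _ => ?_
      ring
    · exact intK R ((hWc.comp (continuous_apply v)).mul (hcd v))
    · exact intK R (continuous_const.mul (hcd v))
  have hlim2 : Tendsto (fun ε : ℝ => 1 / lam *
      ((∑ v : P, ∫ y in KK R, W (y v) * (fderiv ℝ F y (Pi.single v 1)) ^ 2) +
      ε * ∑ v : P, ∫ y in KK R, (fderiv ℝ F y (Pi.single v 1)) ^ 2)) (𝓝[>] 0)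
      (𝓝 (1 / lam * ((∑ v : P, ∫ y in KK R, W (y v) * (fderiv ℝ F y (Pi.single v 1)) ^ 2) +
      0 * ∑ v : P, ∫ y in KK R, (fderiv ℝ F y (Pi.single v 1)) ^ 2))) := by
    have h1 : Tendsto (fun ε : ℝ => ε) (𝓝[>] (0 : ℝ)) (𝓝 0) := nhdsWithin_le_nhds
    exact (tendsto_const_nhds.add (h1.mul_const _)).const_mul _
  rw [zero_mul, add_zero] at hlim2
  refine ge_of_tendsto hlim2 ?_
  filter_upwards [self_mem_nhdsWithin] with ε hε'
  rw [← hsplit]
  exact hε ε hε'

theorem t_LIM : S_DISC → S_MOV → S_CNT → S_ENE → S_CEL1 → S_CEL3 → S_LIM := by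
  intro hDISC hMOV hCNT hENE hCEL1 hCEL3 P _ _ R W lam hvol hWc hW0 hWe hW1 hlam
  rintro ⟨M₀, h, γ, hS, hlim⟩ F hF
  exact lim_aux hDISC hMOV hCNT hENE hCEL1 hCEL3 R W lam hvol hWc hW0 hWe hW1 hlam M₀ h γ hS
    hlim F hF

end Run7.h67.KF
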