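import Pool.Agent.Run7.h67.KF.Base

/-!
# KF piece IBP (helper67)
-/

set_option autoImplicit false

namespace Run7.h67.KF

open Run7.h523.KF MeasureTheory Set Filter Topology

namespace IBP

/-- the one-dimensional map -/
def ph (s y : ℝ) : ℝ := y + s * (y - y ^ 3)

theorem ph_neg (s y : ℝ) : ph s (-y) = -ph s y := by unfold ph; ring

theorem ph_lt {s x y : ℝ} (hs : |s| < 1 / 4) (hx : -1 ≤ x) (hy : y ≤ 1) (hxy : x < y) :
    ph s x < ph s y := by
  have h1 : ph s y - ph s x = (y - x) * (1 + s * (1 - (x ^ 2 + x * y + y ^ 2))) := by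
    unfold ph; ring
  have h2 := abs_lt.1 hs
  have h3 : 0 ≤ x ^ 2 + x * y + y ^ 2 := by nlinarith [sq_nonneg (x + y), sq_nonneg x, sq_nonneg y]
  have hx2 : x ^ 2 ≤ 1 := by nlinarith
  have hy2 : y ^ 2 ≤ 1 := by nlinarith
  have hxy2 : x * y ≤ 1 := by nlinarith [sq_nonneg (x - y)]
  have h4 : x ^ 2 + x * y + y ^ 2 ≤ 3 := by linarith
  have h5 : 0 < 1 + s * (1 - (x ^ 2 + x * y + y ^ 2)) := by
    set q := x ^ 2 + x * y + y ^ 2
    rcases le_or_gt 0 s with h | h
    · nlinarith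
    · nlinarith
  have h6 : 0 < ph s y - ph s x := by rw [h1]; exact mul_pos (by linarith) h5
  linarith

theorem ph_mem {s x : ℝ} (hs : |s| < 1 / 4) (hx : -1 ≤ x ∧ x ≤ 1) :
    -1 ≤ ph s x ∧ ph s x ≤ 1 := by
  have h1 : ph s 1 = 1 := by unfold ph; ring
  have h2 : ph s (-1) = -1 := by unfold ph; ring
  constructor
  · rcases eq_or_lt_of_le hx.1 with h | h
    · rw [← h, h2]
    · rw [← h2]; exact (ph_lt hs le_rfl hx.2 h).le
  · rcases eq_or_lt_of_le hx.2 with h | h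
    · rw [h, h1]
    · calc ph s x ≤ ph s 1 := (ph_lt hs hx.1 le_rfl h).le
        _ = 1 := h1

theorem ph_surj {s z : ℝ} (hz : -1 ≤ z ∧ z ≤ 1) :
    ∃ x, (-1 ≤ x ∧ x ≤ 1) ∧ ph s x = z := by
  have h1 : ph s 1 = 1 := by unfold ph; ring
  have h2 : ph s (-1) = -1 := by unfold ph; ring
  have hc : ContinuousOn (ph s) (Icc (-1) 1) := by
    unfold ph; fun_prop
  have := intermediate_value_Icc (by norm_num : (-1 : ℝ) ≤ 1) hc
  rw [h1, h2] at this
  obtain ⟨x, hx, hx'⟩ := this (show z ∈ Icc (-1 : ℝ) 1 from hz)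
  exact ⟨x, hx, hx'⟩

variable {P : Type}

/-- the map on the cube -/
def Ph (s : ℝ) (y : P → ℝ) : P → ℝ := fun v => ph s (y v)

theorem sv_Ph (s : ℝ) (y : P → ℝ) (a : P × Bool) : sv (Ph s y) a = ph s (sv y a) := by
  unfold sv Ph
  split_ifs
  · rfl
  · rw [ph_neg]

theorem Ph_image {s : ℝ} (hs : |s| < 1 / 4) (R : P × Bool → P × Bool → Prop) :
    Ph s '' KK R = KK R := by
  apply Set.Subset.antisymm
  · rintro _ ⟨y, hy, rfl⟩
    refine ⟨fun v => ph_mem hs (hy.1 v), fun a b hab => ?_⟩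
    rw [sv_Ph, sv_Ph]
    have h1 := sv_abs_le hy.1 a
    have h2 := sv_abs_le hy.1 b
    rcases eq_or_lt_of_le (hy.2 a b hab) with h | h
    · rw [h]
    · exact (ph_lt hs h1.1 h2.2 h).le
  · intro z hz
    choose y hy hyz using fun v => ph_surj (s := s) (hz.1 v)
    have hyz' : Ph s y = z := funext hyz
    refine ⟨y, ⟨hy, fun a b hab => ?_⟩, hyz'⟩
    by_contra hcon
    push Not at hcon
    have h1 := sv_abs_le hy a
    have h2 := sv_abs_le hy b
    have h3 := ph_lt hs h2.1 h1.2 hcon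
    rw [← sv_Ph, ← sv_Ph, hyz'] at h3
    exact absurd (hz.2 a b hab) (not_le.2 h3)

theorem Ph_inj {s : ℝ} (hs : |s| < 1 / 4) (R : P × Bool → P × Bool → Prop) :
    InjOn (Ph s) (KK R) := by
  intro y hy z hz h
  funext v
  have h1 : ph s (y v) = ph s (z v) := congrFun h v
  rcases lt_trichotomy (y v) (z v) with h2 | h2 | h2
  · exact absurd h1 (ph_lt hs (hy.1 v).1 (hz.1 v).2 h2).ne
  · exact h2
  · exact absurd h1 (ph_lt hs (hz.1 v).1 (hy.1 v).2 h2).ne'

variable [Fintype P]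

theorem Ph_deriv (s : ℝ) (y : P → ℝ) :
    HasFDerivAt (Ph s) (ContinuousLinearMap.pi fun v : P =>
      ((1 + s * (1 - 3 * y v ^ 2)) • ContinuousLinearMap.id ℝ ℝ).comp
        (ContinuousLinearMap.proj v)) y := by
  rw [hasFDerivAt_pi]
  intro v
  have h1 : HasDerivAt (ph s) (1 + s * (1 - 3 * y v ^ 2)) (y v) := by
    have h0 : HasDerivAt (fun x : ℝ => x + s * (x - x ^ 3))
        (1 + s * (1 - ((3 : ℕ) : ℝ) * y v ^ (3 - 1))) (y v) :=
      (hasDerivAt_id' (y v)).fun_add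
        (((hasDerivAt_id' (y v)).fun_sub (hasDerivAt_pow 3 (y v))).const_mul s)
    refine HasDerivAt.congr_deriv (f := ph s) h0 ?_
    norm_num
  have h3 : HasFDerivAt (fun z : P → ℝ => z v)
      (ContinuousLinearMap.proj (R := ℝ) (φ := fun _ : P => ℝ) v) y :=
    (ContinuousLinearMap.proj (R := ℝ) (φ := fun _ : P => ℝ) v).hasFDerivAt
  have h4 : HasFDerivAt (ph s) (ContinuousLinearMap.toSpanSingleton ℝ (1 + s * (1 - 3 * y v ^ 2)))
      ((fun z : P → ℝ => z v) y) := h1.hasFDerivAt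
  have h2 := h4.comp y h3
  refine HasFDerivAt.congr_fderiv (f := fun x : P → ℝ => Ph s x v) h2 ?_
  ext w
  simp [mul_comm]

theorem Ph_det (s : ℝ) (y : P → ℝ) :
    (ContinuousLinearMap.pi fun v : P =>
      ((1 + s * (1 - 3 * y v ^ 2)) • ContinuousLinearMap.id ℝ ℝ).comp
        (ContinuousLinearMap.proj v)).det = ∏ v : P, (1 + s * (1 - 3 * y v ^ 2)) := by
  rw [ContinuousLinearMap.det_pi]
  refine Finset.prod_congr rfl fun v _ => ?_
  rw [ContinuousLinearMap.det]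
  simp

/-- the integrand -/
noncomputable def Fs (θ : P → ℝ) (s : ℝ) (y : P → ℝ) : ℝ :=
  (∏ v : P, (1 + s * (1 - 3 * y v ^ 2))) * ∑ v, θ v * ph s (y v)

/-- its derivative in `s` -/
noncomputable def Fs' [DecidableEq P] (θ : P → ℝ) (s : ℝ) (y : P → ℝ) : ℝ :=
  (∑ v : P, (∏ w ∈ Finset.univ.erase v, (1 + s * (1 - 3 * y w ^ 2))) * (1 - 3 * y v ^ 2)) *
    (∑ v, θ v * ph s (y v)) +
  (∏ v : P, (1 + s * (1 - 3 * y v ^ 2))) * ∑ v, θ v * (y v - y v ^ 3)

theorem Fs_int {s : ℝ} (hs : |s| < 1 / 4) (R : P × Bool → P × Bool → Prop) (θ : P → ℝ) :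
    ∫ y in KK R, Fs θ s y = ∫ y in KK R, ∑ v, θ v * y v := by
  have h := integral_image_eq_integral_abs_det_fderiv_smul volume (KK_meas R)
    (fun y _ => (Ph_deriv s y).hasFDerivWithinAt) (Ph_inj hs R) (fun y => ∑ v, θ v * y v)
  rw [Ph_image hs R] at h
  rw [h]
  refine setIntegral_congr_fun (KK_meas R) fun y hy => ?_
  show Fs θ s y = _
  have h2 := abs_lt.1 hs
  have hpos : 0 ≤ ∏ v : P, (1 + s * (1 - 3 * y v ^ 2)) := by
    refine Finset.prod_nonneg fun v _ => ?_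
    have h3 := hy.1 v
    have h4 : y v ^ 2 ≤ 1 := by nlinarith
    have h5 := sq_nonneg (y v)
    nlinarith
  simp only [Ph_det, abs_of_nonneg hpos, smul_eq_mul]
  rfl

theorem Fs_deriv [DecidableEq P] (θ : P → ℝ) (s : ℝ) (y : P → ℝ) :
    HasDerivAt (fun s => Fs θ s y) (Fs' θ s y) s := by
  unfold Fs Fs'
  have h1 : HasDerivAt (fun s : ℝ => ∏ v : P, (1 + s * (1 - 3 * y v ^ 2)))
      (∑ v : P, (∏ w ∈ Finset.univ.erase v, (1 + s * (1 - 3 * y w ^ 2))) * (1 - 3 * y v ^ 2)) s := by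
    have := HasDerivAt.fun_finsetProd (u := Finset.univ) (f := fun v (s : ℝ) => (1 + s * (1 - 3 * y v ^ 2)))
      (f' := fun v => 1 - 3 * y v ^ 2) (x := s) (fun v _ => by
        have := ((hasDerivAt_id s).mul_const (1 - 3 * y v ^ 2)).const_add 1
        simpa using this)
    simpa [smul_eq_mul] using this
  have h2 : HasDerivAt (fun s : ℝ => ∑ v, θ v * ph s (y v)) (∑ v, θ v * (y v - y v ^ 3)) s := by
    refine HasDerivAt.fun_sum fun v _ => ?_
    unfold ph
    have := (((hasDerivAt_id s).mul_const (y v - y v ^ 3)).const_add (y v)).const_mul (θ v)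
    simpa using this
  exact h1.mul h2

end IBP

theorem t_IBP : S_IBP := by
  intro P _ _ R θ
  classical
  set K := KK R with hK
  have hcF : Continuous fun p : ℝ × (P → ℝ) => IBP.Fs θ p.1 p.2 := by
    unfold IBP.Fs IBP.ph; fun_prop
  have hcF' : Continuous fun p : ℝ × (P → ℝ) => IBP.Fs' θ p.1 p.2 := by
    unfold IBP.Fs' IBP.ph; fun_prop
  have hcy : ∀ s, Continuous fun y : P → ℝ => IBP.Fs θ s y := fun s =>
    hcF.comp (by fun_prop : Continuous fun y : P → ℝ => (s, y))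
  have hcy' : ∀ s, Continuous fun y : P → ℝ => IBP.Fs' θ s y := fun s =>
    hcF'.comp (by fun_prop : Continuous fun y : P → ℝ => (s, y))
  obtain ⟨C, hC⟩ := ((isCompact_Icc (a := (-1 / 4 : ℝ)) (b := 1 / 4)).prod
    (KK_compact R)).exists_bound_of_continuousOn hcF'.continuousOn
  have hmain := hasDerivAt_integral_of_dominated_loc_of_deriv_le (μ := volume.restrict K)
    (F := fun s y => IBP.Fs θ s y) (F' := fun s y => IBP.Fs' θ s y) (x₀ := (0 : ℝ))
    (s := Icc (-1 / 4 : ℝ) (1 / 4)) (bound := fun _ => C)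
    (Icc_mem_nhds (by norm_num) (by norm_num))
    (Eventually.of_forall fun s => (hcy s).aestronglyMeasurable)
    (intK R (hcy 0)) (hcy' 0).aestronglyMeasurable
    ((ae_restrict_iff' (KK_meas R)).2 (Eventually.of_forall fun y hy s hs => hC (s, y) ⟨hs, hy⟩))
    (intK R continuous_const)
    (Eventually.of_forall fun y s _ => IBP.Fs_deriv θ s y)
  have hconst : HasDerivAt (fun s : ℝ => ∫ y in K, IBP.Fs θ s y) 0 0 := by
    have h1 : (fun s : ℝ => ∫ y in K, IBP.Fs θ s y) =ᶠ[𝓝 0]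
        fun _ => ∫ y in K, ∑ v, θ v * y v := by
      have : Metric.ball (0 : ℝ) (1 / 4) ∈ 𝓝 (0 : ℝ) := Metric.ball_mem_nhds _ (by norm_num)
      filter_upwards [this] with s hs
      exact IBP.Fs_int (by simpa [Real.dist_eq] using hs) R θ
    exact (hasDerivAt_const (0 : ℝ) _).congr_of_eventuallyEq h1
  have h0 := hmain.2.unique hconst
  rw [← h0]
  refine setIntegral_congr_fun (KK_meas R) fun y _ => ?_
  show _ = IBP.Fs' θ 0 y
  simp only [IBP.Fs', IBP.ph, zero_mul, add_zero, Finset.prod_const_one, one_mul]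
  ring

end Run7.h67.KF
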