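import Pool.Agent.Run7.h67.KF.Base

/-!
# KF piece SYM (helper67)
-/

set_option autoImplicit false
set_option linter.unusedSectionVars false

namespace Run7.h67.KF

open Run7.h523.KF MeasureTheory Set Filter Topology

namespace SYM

variable {P : Type}

/-- signed permutations -/
def act (g : Equiv.Perm P × (P → Bool)) (y : P → ℝ) : P → ℝ := fun v => sv y (g.1 v, g.2 v)

theorem sv_act (g : Equiv.Perm P × (P → Bool)) (y : P → ℝ) (a : P × Bool) :
    sv (act g y) a = sv y (g.1 a.1, a.2 == g.2 a.1) := by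
  obtain ⟨v, b⟩ := a
  cases b <;> cases h : g.2 v <;> simp [sv, act, h]

/-- composition -/
def cm (g' g : Equiv.Perm P × (P → Bool)) : Equiv.Perm P × (P → Bool) :=
  (g'.1.trans g.1, fun v => g'.2 v == g.2 (g'.1 v))

theorem act_act (g' g : Equiv.Perm P × (P → Bool)) (y : P → ℝ) :
    act g' (act g y) = act (cm g' g) y := by
  funext v
  show sv (act g y) (g'.1 v, g'.2 v) = _
  rw [sv_act]
  rfl

theorem cm_inj (g : Equiv.Perm P × (P → Bool)) : Function.Injective fun g' => cm g' g := by
  rintro ⟨σ, ε⟩ ⟨σ', ε'⟩ h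
  simp only [cm, Prod.mk.injEq] at h
  obtain ⟨h1, h2⟩ := h
  have h3 : σ = σ' := by
    ext v
    have := Equiv.congr_fun h1 v
    simp only [Equiv.trans_apply] at this
    exact g.1.injective this
  subst h3
  refine Prod.ext rfl ?_
  funext v
  have h4 : (ε v == g.2 (σ v)) = (ε' v == g.2 (σ v)) := congrFun h2 v
  show ε v = ε' v
  revert h4
  cases ε v <;> cases ε' v <;> cases g.2 (σ v) <;> simp

theorem cmp {p q p' q' : ℝ} (hp : p ≠ 0) (hq : q ≠ 0) (hp' : p' ≠ 0) (hq' : q' ≠ 0)
    (h1 : 0 < p ↔ 0 < p') (h2 : 0 < q ↔ 0 < q') (h3 : |p| < |q| ↔ |p'| < |q'|)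
    (h4 : |q| < |p| ↔ |q'| < |p'|) : p ≤ q ↔ p' ≤ q' := by
  rcases lt_or_gt_of_ne hp with a | a
  · have a' : p' < 0 := by
      rcases lt_or_gt_of_ne hp' with b | b
      · exact b
      · exact absurd (h1.2 b) (not_lt.2 a.le)
    rcases lt_or_gt_of_ne hq with b | b
    · have b' : q' < 0 := by
        rcases lt_or_gt_of_ne hq' with c | c
        · exact c
        · exact absurd (h2.2 c) (not_lt.2 b.le)
      rw [abs_of_neg a, abs_of_neg b, abs_of_neg a', abs_of_neg b'] at h3
      constructor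
      · intro h
        by_contra hc
        push Not at hc
        have := h3.2 (by linarith)
        linarith
      · intro h
        by_contra hc
        push Not at hc
        have := h3.1 (by linarith)
        linarith
    · have b' := h2.1 b
      constructor <;> intro _ <;> linarith
  · have a' := h1.1 a
    rcases lt_or_gt_of_ne hq with b | b
    · have b' : q' < 0 := by
        rcases lt_or_gt_of_ne hq' with c | c
        · exact c
        · exact absurd (h2.2 c) (not_lt.2 b.le)
      constructor <;> intro _ <;> linarith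
    · have b' := h2.1 b
      rw [abs_of_pos a, abs_of_pos b, abs_of_pos a', abs_of_pos b'] at h4
      constructor
      · intro h
        by_contra hc
        push Not at hc
        have := h4.2 hc
        linarith
      · intro h
        by_contra hc
        push Not at hc
        have := h4.1 hc
        linarith

/-- generic points -/
def Gen (y : P → ℝ) : Prop := (∀ v, y v ≠ 0) ∧ ∀ v w, v ≠ w → |y v| ≠ |y w|

/-- order equivalence -/
theorem sv_cmp {z z' : P → ℝ} (hz : ∀ v, z v ≠ 0) (hz' : ∀ v, z' v ≠ 0)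
    (h1 : ∀ v, 0 < z v ↔ 0 < z' v) (h2 : ∀ v w, |z v| < |z w| ↔ |z' v| < |z' w|)
    (a b : P × Bool) : sv z a ≤ sv z b ↔ sv z' a ≤ sv z' b := by
  have key : ∀ a : P × Bool, sv z a ≠ 0 ∧ sv z' a ≠ 0 ∧ (0 < sv z a ↔ 0 < sv z' a) ∧
      |sv z a| = |z a.1| ∧ |sv z' a| = |z' a.1| := by
    rintro ⟨v, b⟩
    cases b
    · simp only [sv, Bool.false_eq_true, ↓reduceIte, ne_eq, neg_eq_zero, hz v, hz' v,
        not_false_eq_true, abs_neg, and_self, and_true, true_and]
      constructor
      · intro h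
        rcases lt_or_gt_of_ne (hz' v) with c | c
        · linarith
        · have := (h1 v).2 c
          linarith
      · intro h
        rcases lt_or_gt_of_ne (hz v) with c | c
        · linarith
        · have := (h1 v).1 c
          linarith
    · simp [sv, hz v, hz' v, h1 v]
  obtain ⟨a1, a2, a3, a4, a5⟩ := key a
  obtain ⟨b1, b2, b3, b4, b5⟩ := key b
  exact cmp a1 b1 a2 b2 a3 b3 (by rw [a4, a5, b4, b5]; exact h2 _ _)
    (by rw [a4, a5, b4, b5]; exact h2 _ _)

theorem act_mem_iff {R : P × Bool → P × Bool → Prop} {z z' : P → ℝ}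
    (hz : ∀ v, -1 ≤ z v ∧ z v ≤ 1) (hz' : ∀ v, -1 ≤ z' v ∧ z' v ≤ 1)
    (h : ∀ a b : P × Bool, sv z a ≤ sv z b ↔ sv z' a ≤ sv z' b)
    (g : Equiv.Perm P × (P → Bool)) : act g z ∈ KK R ↔ act g z' ∈ KK R := by
  constructor
  · intro hk
    refine ⟨fun v => sv_abs_le hz' _, fun a b hab => ?_⟩
    have := hk.2 a b hab
    rw [sv_act, sv_act] at this ⊢
    exact (h _ _).1 this
  · intro hk
    refine ⟨fun v => sv_abs_le hz _, fun a b hab => ?_⟩
    have := hk.2 a b hab
    rw [sv_act, sv_act] at this ⊢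
    exact (h _ _).2 this

variable [Fintype P] [DecidableEq P]

theorem exists_rank (f : P → ℝ) (hf : Function.Injective f) :
    ∃ r : P ≃ Fin (Fintype.card P), ∀ v w, f v < f w ↔ r v < r w := by
  classical
  have hc : (Finset.univ.image f).card = Fintype.card P := by
    rw [Finset.card_image_of_injective _ hf, Finset.card_univ]
  let e : P ≃ (Finset.univ.image f : Finset ℝ) := Equiv.ofBijective
    (fun v => ⟨f v, Finset.mem_image_of_mem f (Finset.mem_univ v)⟩)
    ⟨fun v w h => hf (congrArg Subtype.val h), fun x => by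
      obtain ⟨v, _, hv⟩ := Finset.mem_image.1 x.2
      exact ⟨v, Subtype.ext hv⟩⟩
  let io := (Finset.univ.image f).orderIsoOfFin hc
  refine ⟨e.trans io.symm.toEquiv, fun v w => ?_⟩
  show f v < f w ↔ io.symm (e v) < io.symm (e w)
  rw [io.symm.lt_iff_lt]
  rfl

theorem exists_act {y y' : P → ℝ} (hy : Gen y) (hy' : Gen y') :
    ∃ g : Equiv.Perm P × (P → Bool), (∀ v, act g y v ≠ 0) ∧
      (∀ v, 0 < act g y v ↔ 0 < y' v) ∧ ∀ v w, |act g y v| < |act g y w| ↔ |y' v| < |y' w| := by
  classical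
  obtain ⟨r, hr⟩ := exists_rank (fun v => |y v|) (fun v w h => by
    by_contra hc
    exact hy.2 v w hc h)
  obtain ⟨r', hr'⟩ := exists_rank (fun v => |y' v|) (fun v w h => by
    by_contra hc
    exact hy'.2 v w hc h)
  refine ⟨(r'.trans r.symm, fun v => decide (0 < y (r.symm (r' v)) ↔ 0 < y' v)), ?_, ?_, ?_⟩
  · intro v
    simp only [act, sv]
    split_ifs
    · exact hy.1 _
    · exact neg_ne_zero.2 (hy.1 _)
  · intro v
    simp only [act, sv, Equiv.trans_apply, decide_eq_true_eq]
    have h1 := hy.1 (r.symm (r' v))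
    have h2 := hy'.1 v
    split_ifs with h
    · exact h
    · rcases lt_or_gt_of_ne h1 with a | a
      · have : ¬ 0 < y (r.symm (r' v)) := not_lt.2 a.le
        have : 0 < y' v := by
          by_contra hc
          exact h ⟨fun h => absurd h this, fun h => absurd h hc⟩
        constructor
        · intro _; exact this
        · intro _; linarith
      · have : ¬ 0 < y' v := by
          intro hc
          exact h ⟨fun _ => hc, fun _ => a⟩
        constructor
        · intro _; linarith
        · intro h'; exact absurd h' this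
  · intro v w
    have habs : ∀ v, |act (r'.trans r.symm, fun v => decide (0 < y (r.symm (r' v)) ↔ 0 < y' v)) y v| =
        |y (r.symm (r' v))| := by
      intro v
      simp only [act, sv, Equiv.trans_apply]
      split_ifs
      · rfl
      · rw [abs_neg]
    rw [habs, habs, hr, Equiv.apply_symm_apply, Equiv.apply_symm_apply, hr']

open Classical in
/-- number of signed permutations which map the point into `K` -/
noncomputable def mm (R : P × Bool → P × Bool → Prop) (y : P → ℝ) : ℝ :=
  ∑ g : Equiv.Perm P × (P → Bool), if act g y ∈ KK R then (1 : ℝ) else 0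

theorem mm_act (R : P × Bool → P × Bool → Prop) (g : Equiv.Perm P × (P → Bool)) (y : P → ℝ) :
    mm R (act g y) = mm R y := by
  classical
  unfold mm
  simp only [act_act]
  exact Function.Bijective.sum_comp (Finite.injective_iff_bijective.1 (cm_inj g))
    (fun g' => if act g' y ∈ KK R then (1 : ℝ) else 0)

theorem act_cube {y : P → ℝ} (hy : ∀ v, -1 ≤ y v ∧ y v ≤ 1) (g : Equiv.Perm P × (P → Bool)) :
    ∀ v, -1 ≤ act g y v ∧ act g y v ≤ 1 := fun _ => sv_abs_le hy _

theorem mm_const (R : P × Bool → P × Bool → Prop) {y y' : P → ℝ} (hy : Gen y) (hy' : Gen y')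
    (hc : ∀ v, -1 ≤ y v ∧ y v ≤ 1) (hc' : ∀ v, -1 ≤ y' v ∧ y' v ≤ 1) : mm R y = mm R y' := by
  classical
  obtain ⟨g, h1, h2, h3⟩ := exists_act hy hy'
  rw [← mm_act R g y]
  unfold mm
  refine Finset.sum_congr rfl fun g' _ => ?_
  have := act_mem_iff (R := R) (act_cube hc g) hc' (sv_cmp h1 hy'.1 h2 h3) g'
  by_cases h : act g' y' ∈ KK R
  · rw [if_pos h, if_pos (this.2 h)]
  · rw [if_neg h, if_neg (fun h' => h (this.1 h'))]

theorem ae_ne (L : (P → ℝ) →ₗ[ℝ] ℝ) (x : P → ℝ) (hx : L x ≠ 0) : ∀ᵐ y : P → ℝ, L y ≠ 0 := by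
  have h1 : volume (LinearMap.ker L : Set (P → ℝ)) = 0 := by
    apply Measure.addHaar_submodule
    intro h
    have : x ∈ LinearMap.ker L := by rw [h]; trivial
    exact hx this
  rw [ae_iff]
  have h2 : {a : P → ℝ | ¬ L a ≠ 0} = (LinearMap.ker L : Set (P → ℝ)) := by
    ext a
    simp
  rw [h2]
  exact h1

theorem ae_gen : ∀ᵐ y : P → ℝ, Gen y := by
  have h1 : ∀ᵐ y : P → ℝ, ∀ v, y v ≠ 0 := by
    rw [ae_all_iff]
    intro v
    have := ae_ne (LinearMap.proj v : (P → ℝ) →ₗ[ℝ] ℝ) (Pi.single v 1) (by simp)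
    simpa using this
  have h2 : ∀ᵐ y : P → ℝ, ∀ v w, v ≠ w → |y v| ≠ |y w| := by
    rw [ae_all_iff]
    intro v
    rw [ae_all_iff]
    intro w
    by_cases hvw : v = w
    · exact Eventually.of_forall fun y h => absurd hvw h
    have hs : (Pi.single v 1 : P → ℝ) w = 0 := by
      rw [Pi.single_apply, if_neg (Ne.symm hvw)]
    have hs' : (Pi.single v 1 : P → ℝ) v = 1 := by simp
    have h3 := ae_ne (LinearMap.proj v + (-1 : ℝ) • LinearMap.proj w : (P → ℝ) →ₗ[ℝ] ℝ)
      (Pi.single v 1) (by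
        show (Pi.single v 1 : P → ℝ) v + (-1 : ℝ) • (Pi.single v 1 : P → ℝ) w ≠ 0
        rw [hs, hs']; norm_num)
    have h4 := ae_ne (LinearMap.proj v + (1 : ℝ) • LinearMap.proj w : (P → ℝ) →ₗ[ℝ] ℝ)
      (Pi.single v 1) (by
        show (Pi.single v 1 : P → ℝ) v + (1 : ℝ) • (Pi.single v 1 : P → ℝ) w ≠ 0
        rw [hs, hs']; norm_num)
    filter_upwards [h3, h4] with y h5 h6 _ h7
    rcases abs_eq_abs.1 h7 with h8 | h8
    · exact h5 (by simp [h8])
    · exact h6 (by simp [h8])
  filter_upwards [h1, h2] with y h3 h4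
  exact ⟨h3, h4⟩

theorem act_mp (g : Equiv.Perm P × (P → Bool)) :
    MeasurePreserving (act g : (P → ℝ) → (P → ℝ)) := by
  have h1 : MeasurePreserving (MeasurableEquiv.piCongrLeft (fun _ : P => ℝ) g.1.symm) volume
      volume := volume_measurePreserving_piCongrLeft (fun _ : P => ℝ) g.1.symm
  have h2 : MeasurePreserving (fun (a : P → ℝ) (v : P) => (if g.2 v then a v else -a v)) volume
      volume := by
    refine volume_preserving_pi (α' := fun _ : P => ℝ) (β' := fun _ : P => ℝ)
      (f := fun v z => if g.2 v then z else -z) fun v => ?_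
    by_cases h : g.2 v
    · simp only [h, if_true]
      exact MeasurePreserving.id _
    · simp only [h]
      exact Measure.measurePreserving_neg _
  have h3 := h2.comp h1
  have h4 : (act g : (P → ℝ) → (P → ℝ)) = ((fun (a : P → ℝ) (v : P) => (if g.2 v then a v else -a v)) ∘
      (MeasurableEquiv.piCongrLeft (fun _ : P => ℝ) g.1.symm)) := by
    funext y v
    simp only [act, sv, Function.comp]
    have : (MeasurableEquiv.piCongrLeft (fun _ : P => ℝ) g.1.symm) y v = y (g.1 v) := by
      rw [MeasurableEquiv.coe_piCongrLeft]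
      have := Equiv.piCongrLeft_apply_apply (fun _ : P => ℝ) g.1.symm y (g.1 v)
      rwa [Equiv.symm_apply_apply] at this
    rw [this]
  rw [h4]
  exact h3

theorem inv_flip (Φ : (P → ℝ) → ℝ)
    (hf : ∀ (v : P) (y : P → ℝ), Φ (Function.update y v (-y v)) = Φ y) (T : Finset P)
    (z : P → ℝ) : Φ (fun v => if v ∈ T then -z v else z v) = Φ z := by
  induction T using Finset.induction_on with
  | empty => simp
  | insert a T ha ih =>
    rw [← ih, ← hf a]
    congr 1
    funext v
    by_cases h : v = a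
    · subst h
      simp [ha]
    · simp [h, Finset.mem_insert]

theorem inv_act (Φ : (P → ℝ) → ℝ)
    (hp : ∀ (σ : Equiv.Perm P) (y : P → ℝ), Φ (fun v => y (σ v)) = Φ y)
    (hf : ∀ (v : P) (y : P → ℝ), Φ (Function.update y v (-y v)) = Φ y)
    (g : Equiv.Perm P × (P → Bool)) (y : P → ℝ) : Φ (act g y) = Φ y := by
  rw [← hp g.1 y, ← inv_flip Φ hf (Finset.univ.filter fun v => g.2 v = false)]
  congr 1
  funext v
  simp only [act, sv, Finset.mem_filter, Finset.mem_univ, true_and]
  cases g.2 v <;> simp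

theorem act_surj_cube {y : P → ℝ} (g : Equiv.Perm P × (P → Bool))
    (h : ∀ v, -1 ≤ act g y v ∧ act g y v ≤ 1) : ∀ v, -1 ≤ y v ∧ y v ≤ 1 := by
  intro v
  have h1 := h (g.1.symm v)
  simp only [act, sv, Equiv.apply_symm_apply] at h1
  split_ifs at h1
  · exact h1
  · constructor <;> linarith

/-- the cube -/
def cube (P : Type) : Set (P → ℝ) := Set.pi univ fun _ : P => Icc (-1 : ℝ) 1

theorem main (R : P × Bool → P × Bool → Prop) : ∃ m₀ : ℝ, ∀ Φ : (P → ℝ) → ℝ, Continuous Φ →
    (∀ (σ : Equiv.Perm P) (y : P → ℝ), Φ (fun v => y (σ v)) = Φ y) →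
    (∀ (v : P) (y : P → ℝ), Φ (Function.update y v (-y v)) = Φ y) →
    (Fintype.card (Equiv.Perm P × (P → Bool)) : ℝ) * ∫ y in KK R, Φ y =
      m₀ * ∫ y in cube P, Φ y := by
  classical
  obtain ⟨m₀, hm₀⟩ : ∃ m₀ : ℝ, ∀ y : P → ℝ, Gen y → (∀ v, -1 ≤ y v ∧ y v ≤ 1) → mm R y = m₀ := by
    by_cases h : ∃ y₀ : P → ℝ, Gen y₀ ∧ ∀ v, -1 ≤ y₀ v ∧ y₀ v ≤ 1
    · obtain ⟨y₀, h1, h2⟩ := h
      exact ⟨mm R y₀, fun y hy hy' => mm_const R hy h1 hy' h2⟩
    · exact ⟨0, fun y hy hy' => absurd ⟨y, hy, hy'⟩ h⟩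
  refine ⟨m₀, fun Φ hΦ hp hf => ?_⟩
  set H : (P → ℝ) → ℝ := (KK R).indicator Φ with hH
  have hHi : Integrable H := (integrable_indicator_iff (KK_meas R)).2 (intK R hΦ)
  have hg : ∀ g : Equiv.Perm P × (P → Bool), ∫ y in KK R, Φ y = ∫ y, H (act g y) := by
    intro g
    rw [← integral_indicator (KK_meas R), ← hH]
    conv_lhs => rw [← (act_mp g).map_eq]
    rw [integral_map (act_mp g).measurable.aemeasurable]
    rw [(act_mp g).map_eq]
    exact hHi.aestronglyMeasurable
  have hsum : (Fintype.card (Equiv.Perm P × (P → Bool)) : ℝ) * ∫ y in KK R, Φ y =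
      ∫ y, ∑ g : Equiv.Perm P × (P → Bool), H (act g y) := by
    have e1 : ∫ y, ∑ g : Equiv.Perm P × (P → Bool), H (act g y) =
        ∑ g : Equiv.Perm P × (P → Bool), ∫ y, H (act g y) :=
      integral_finsetSum _ fun g _ => (act_mp g).integrable_comp_of_integrable hHi
    rw [e1, ← Finset.sum_congr rfl fun g _ => hg g]
    rw [Finset.sum_const, nsmul_eq_mul, Finset.card_univ]
  have hcm : MeasurableSet (cube P) := MeasurableSet.univ_pi fun _ => measurableSet_Icc
  rw [hsum, ← integral_const_mul, ← integral_indicator hcm]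
  refine integral_congr_ae ?_
  filter_upwards [ae_gen (P := P)] with y hy
  have h1 : ∀ g : Equiv.Perm P × (P → Bool), H (act g y) =
      (if act g y ∈ KK R then (1 : ℝ) else 0) * Φ y := by
    intro g
    rw [hH, Set.indicator_apply, inv_act Φ hp hf]
    split_ifs <;> simp
  rw [Finset.sum_congr rfl fun g _ => h1 g, ← Finset.sum_mul]
  show mm R y * Φ y = _
  by_cases hc : ∀ v, -1 ≤ y v ∧ y v ≤ 1
  · rw [Set.indicator_of_mem (show y ∈ cube P from
      fun v _ => hc v), hm₀ y hy hc]
  · rw [Set.indicator_of_notMem (show y ∉ cube P from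
      fun h => hc fun v => h v trivial)]
    have : mm R y = 0 := by
      unfold mm
      refine Finset.sum_eq_zero fun g _ => ?_
      rw [if_neg]
      intro h
      exact hc (act_surj_cube g h.1)
    rw [this, zero_mul]

end SYM

theorem t_SYM : S_SYM := by
  intro P _ _ R Φ hΦ hp hf
  obtain ⟨m₀, h⟩ := SYM.main R
  have h1 := h Φ hΦ hp hf
  have h2 := h (fun _ => 1) continuous_const (fun _ _ => rfl) (fun _ _ => rfl)
  have hcube : volume.real (SYM.cube P) = 2 ^ Fintype.card P := by
    rw [SYM.cube, Measure.real, Set.pi_univ_Icc, Real.volume_Icc_pi_toReal]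
    · norm_num
    · intro _
      norm_num
  rw [setIntegral_const, setIntegral_const, hcube] at h2
  simp only [smul_eq_mul, mul_one] at h2
  have hcard : (0 : ℝ) < Fintype.card (Equiv.Perm P × (P → Bool)) := by
    have : 0 < Fintype.card (Equiv.Perm P × (P → Bool)) := Fintype.card_pos
    exact_mod_cast this
  have h2' : (Fintype.card (Equiv.Perm P × (P → Bool)) : ℝ) * (volume (KK R)).toReal =
      m₀ * 2 ^ Fintype.card P := h2
  have hpos : (0 : ℝ) < 2 ^ Fintype.card P := by positivity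
  change _ = _ * ∫ y in SYM.cube P, Φ y
  rw [← mul_right_inj' hcard.ne', h1, ← mul_assoc, ← mul_div_assoc, h2', mul_div_assoc,
    div_self hpos.ne', mul_one]

end Run7.h67.KF
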