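import Pool.Agent.Run7.h67.KF.Base

/-!
# KF piece VLB (helper67)
-/

set_option autoImplicit false
set_option linter.unusedSectionVars false

namespace Run7.h67.KF

open Run7.h523.KF MeasureTheory Set Filter Topology

namespace VLB

variable {P : Type} [Fintype P] [DecidableEq P]

/-- integral over the cube of a product -/
theorem cube_prod (f : P → ℝ → ℝ) :
    ∫ y in (Set.pi univ fun _ : P => Icc (-1 : ℝ) 1), ∏ v, f v (y v) =
      ∏ v, ∫ x in Icc (-1 : ℝ) 1, f v x := by
  have h1 : (volume : Measure (P → ℝ)).restrict (Set.pi univ fun _ : P => Icc (-1 : ℝ) 1) =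
      Measure.pi fun _ : P => (volume : Measure ℝ).restrict (Icc (-1 : ℝ) 1) := by
    rw [volume_pi, Measure.restrict_pi_pi]
  rw [h1]
  exact integral_fintype_prod_eq_prod (fun v x => f v x)

theorem one_dim_one : ∫ _x in Icc (-1 : ℝ) 1, (1 : ℝ) = 2 := by
  rw [setIntegral_const]
  simp only [Measure.real, Real.volume_Icc, smul_eq_mul, mul_one]
  norm_num

theorem icc_eq (p : ℝ → ℝ) : ∫ x in Icc (-1 : ℝ) 1, p x = ∫ x in (-1 : ℝ)..1, p x := by
  rw [integral_Icc_eq_integral_Ioc, intervalIntegral.integral_of_le (by norm_num)]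

/-- one coordinate -/
theorem cube_one (p : ℝ → ℝ) (v : P) :
    ∫ y in (Set.pi univ fun _ : P => Icc (-1 : ℝ) 1), p (y v) =
      2 ^ Fintype.card P / 2 * ∫ x in (-1 : ℝ)..1, p x := by
  have h1 := cube_prod (fun w : P => if w = v then p else fun _ => 1)
  have h2 : ∀ y : P → ℝ, ∏ w, (if w = v then p else fun _ => 1) (y w) = p (y v) := by
    intro y
    rw [Finset.prod_eq_single v]
    · simp
    · intro w _ hw
      simp [hw]
    · intro h
      exact absurd (Finset.mem_univ v) h
  simp only [h2] at h1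
  rw [h1, ← Finset.mul_prod_erase _ _ (Finset.mem_univ v)]
  rw [Finset.prod_congr rfl (g := fun _ => (2 : ℝ))]
  · rw [Finset.prod_const, Finset.card_erase_of_mem (Finset.mem_univ v), Finset.card_univ]
    simp only [if_true]
    rw [icc_eq]
    have hc : 0 < Fintype.card P := Fintype.card_pos_iff.2 ⟨v⟩
    obtain ⟨n, hn⟩ := Nat.exists_eq_succ_of_ne_zero hc.ne'
    rw [hn, Nat.succ_eq_add_one, Nat.add_sub_cancel, pow_succ]
    ring
  · intro w hw
    simp only [Finset.ne_of_mem_erase hw, if_false]
    exact one_dim_one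

/-- two coordinates -/
theorem cube_two (p q : ℝ → ℝ) (hp : ∫ x in (-1 : ℝ)..1, p x = 0) (v w : P) (hvw : v ≠ w) :
    ∫ y in (Set.pi univ fun _ : P => Icc (-1 : ℝ) 1), p (y v) * q (y w) = 0 := by
  have h1 := cube_prod (fun u : P => if u = v then p else if u = w then q else fun _ => 1)
  have h2 : ∀ y : P → ℝ, ∏ u, (if u = v then p else if u = w then q else fun _ => 1) (y u) =
      p (y v) * q (y w) := by
    intro y
    rw [← Finset.mul_prod_erase _ _ (Finset.mem_univ v)]
    rw [Finset.prod_eq_single w]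
    · simp [Ne.symm hvw]
    · intro u hu hu'
      simp [Finset.ne_of_mem_erase hu, hu']
    · intro h
      exact absurd (Finset.mem_erase.2 ⟨Ne.symm hvw, Finset.mem_univ w⟩) h
  simp only [h2] at h1
  rw [h1]
  refine Finset.prod_eq_zero (Finset.mem_univ v) ?_
  simp only [if_true]
  rw [icc_eq, hp]

/-- the function g -/
def g (y : ℝ) : ℝ := y - y ^ 3

/-- b -/
def b (y : ℝ) : ℝ := 1 - 3 * y ^ 2

theorem int_g2 : ∫ x in (-1 : ℝ)..1, g x ^ 2 = 16 / 105 := by
  have h1 : ∀ x : ℝ, g x ^ 2 = x ^ 2 - 2 * x ^ 4 + x ^ 6 := by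
    intro x
    unfold g
    ring
  simp only [h1]
  rw [intervalIntegral.integral_add, intervalIntegral.integral_sub,
    intervalIntegral.integral_const_mul, integral_pow, integral_pow, integral_pow]
  · norm_num
  all_goals exact Continuous.intervalIntegrable (by fun_prop) _ _

theorem int_b : ∫ x in (-1 : ℝ)..1, b x = 0 := by
  unfold b
  rw [intervalIntegral.integral_sub, intervalIntegral.integral_const_mul, integral_pow,
    intervalIntegral.integral_const]
  · norm_num
  all_goals exact Continuous.intervalIntegrable (by fun_prop) _ _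

theorem int_b2 : ∫ x in (-1 : ℝ)..1, b x * b x = 8 / 5 := by
  have h1 : ∀ x : ℝ, b x * b x = 1 - 6 * x ^ 2 + 9 * x ^ 4 := by
    intro x
    unfold b
    ring
  simp only [h1]
  rw [intervalIntegral.integral_add, intervalIntegral.integral_sub,
    intervalIntegral.integral_const_mul, intervalIntegral.integral_const_mul, integral_pow,
    integral_pow, intervalIntegral.integral_const]
  · norm_num
  all_goals exact Continuous.intervalIntegrable (by fun_prop) _ _

theorem cont_g : Continuous g := by unfold g; fun_prop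
theorem cont_b : Continuous b := by unfold b; fun_prop

theorem cube_int {G : (P → ℝ) → ℝ} (hG : Continuous G) :
    IntegrableOn G (Set.pi univ fun _ : P => Icc (-1 : ℝ) 1) :=
  hG.continuousOn.integrableOn_compact (isCompact_univ_pi fun _ => isCompact_Icc)

theorem cube_g2 : ∫ y in (Set.pi univ fun _ : P => Icc (-1 : ℝ) 1), ∑ v, g (y v) ^ 2 =
    2 ^ Fintype.card P * (8 * Fintype.card P / 105) := by
  rw [integral_finsetSum]
  · rw [Finset.sum_congr rfl fun v _ => cube_one (fun x => g x ^ 2) v, Finset.sum_const,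
      int_g2, Finset.card_univ, nsmul_eq_mul]
    ring
  · intro v _
    exact cube_int ((cont_g.comp (continuous_apply v)).pow 2)

theorem cube_b : ∫ y in (Set.pi univ fun _ : P => Icc (-1 : ℝ) 1), ∑ v, b (y v) = 0 := by
  rw [integral_finsetSum]
  · rw [Finset.sum_congr rfl fun v _ => cube_one b v, int_b]
    simp
  · intro v _
    exact cube_int (cont_b.comp (continuous_apply v))

theorem cube_b2 : ∫ y in (Set.pi univ fun _ : P => Icc (-1 : ℝ) 1), (∑ v, b (y v)) ^ 2 =
    2 ^ Fintype.card P * (4 * Fintype.card P / 5) := by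
  have hc : ∀ v w : P, Continuous fun y : P → ℝ => b (y v) * b (y w) := fun v w =>
    (cont_b.comp (continuous_apply v)).mul (cont_b.comp (continuous_apply w))
  simp only [sq, Finset.sum_mul_sum]
  rw [integral_finsetSum]
  · have : ∀ v : P, ∫ y in (Set.pi univ fun _ : P => Icc (-1 : ℝ) 1), ∑ w, b (y v) * b (y w) =
        2 ^ Fintype.card P * (4 / 5) := by
      intro v
      rw [integral_finsetSum]
      · rw [Finset.sum_eq_single v]
        · rw [cube_one (fun x => b x * b x) v, int_b2]
          ring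
        · intro w _ hw
          exact cube_two b b int_b v w (Ne.symm hw)
        · intro h
          exact absurd (Finset.mem_univ v) h
      · intro w _
        exact cube_int (hc v w)
    rw [Finset.sum_congr rfl fun v _ => this v, Finset.sum_const, Finset.card_univ, nsmul_eq_mul]
    ring
  · intro v _
    exact cube_int (continuous_finsetSum _ fun w _ => hc v w)

theorem sum_flip (k : ℝ → ℝ) (hk : ∀ x, k (-x) = k x) (v : P) (y : P → ℝ) :
    ∑ w, k (Function.update y v (-y v) w) = ∑ w, k (y w) := by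
  refine Finset.sum_congr rfl fun w _ => ?_
  by_cases h : w = v
  · subst h
    simp [hk]
  · simp [h]

theorem g_lip {y m : ℝ} (hy : -1 ≤ y ∧ y ≤ 1) (hm : -1 ≤ m ∧ m ≤ 1) :
    (g y - g m) ^ 2 ≤ 4 * (y - m) ^ 2 := by
  have h1 : g y - g m = (y - m) * (1 - (y ^ 2 + y * m + m ^ 2)) := by
    unfold g; ring
  have h3 : 0 ≤ y ^ 2 + y * m + m ^ 2 := by nlinarith [sq_nonneg (y + m), sq_nonneg y, sq_nonneg m]
  have hx2 : y ^ 2 ≤ 1 := by nlinarith
  have hy2 : m ^ 2 ≤ 1 := by nlinarith
  have hxy2 : y * m ≤ 1 := by nlinarith [sq_nonneg (y - m)]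
  have h4 : y ^ 2 + y * m + m ^ 2 ≤ 3 := by linarith
  have h5 : (1 - (y ^ 2 + y * m + m ^ 2)) ^ 2 ≤ 4 := by nlinarith
  rw [h1, mul_pow]
  nlinarith [sq_nonneg (y - m)]

end VLB

open VLB in
theorem t_VLB : S_SYM → S_IBP → S_VLB := by
  intro hSYM hIBP P _ _ _ R s hvol hs
  classical
  set V := (volume (KK R)).toReal with hV
  have hV0 : 0 < V := ENNReal.toReal_pos hvol.ne' (KK_vol_lt R).ne
  set n : ℝ := (Fintype.card P : ℝ) with hn
  have hn0 : 0 < n := by
    rw [hn]
    exact_mod_cast Fintype.card_pos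
  -- expectation
  obtain ⟨E, hE⟩ : ∃ E : ((P → ℝ) → ℝ) → ℝ, ∀ f, E f = (∫ y in KK R, f y) / V :=
    ⟨fun f => (∫ y in KK R, f y) / V, fun _ => rfl⟩
  have Eadd : ∀ f k : (P → ℝ) → ℝ, Continuous f → Continuous k →
      E (fun y => f y + k y) = E f + E k := by
    intro f k hf hk
    rw [hE, hE, hE, integral_add (intK R hf) (intK R hk), add_div]
  have Emul : ∀ (c : ℝ) (f : (P → ℝ) → ℝ), E (fun y => c * f y) = c * E f := by
    intro c f
    rw [hE, hE, integral_const_mul, mul_div_assoc]
  have Econst : ∀ c : ℝ, E (fun _ => c) = c := by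
    intro c
    rw [hE, setIntegral_const, Measure.real, smul_eq_mul, ← hV, mul_div_assoc, mul_comm,
      div_mul_cancel₀ _ hV0.ne']
  have Emono : ∀ f k : (P → ℝ) → ℝ, Continuous f → Continuous k → (∀ y ∈ KK R, f y ≤ k y) →
      E f ≤ E k := by
    intro f k hf hk h
    rw [hE, hE]
    exact div_le_div_of_nonneg_right
      (setIntegral_mono_on (intK R hf) (intK R hk) (KK_meas R) h) hV0.le
  have Esum : ∀ f : P → (P → ℝ) → ℝ, (∀ v, Continuous (f v)) →
      E (fun y => ∑ v, f v y) = ∑ v, E (f v) := by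
    intro f hf
    rw [hE, integral_finsetSum _ fun v _ => intK R (hf v), Finset.sum_div]
    exact Finset.sum_congr rfl fun v _ => (hE _).symm
  have hcg : ∀ v : P, Continuous fun y : P → ℝ => g (y v) := fun v =>
    cont_g.comp (continuous_apply v)
  have hcb : ∀ v : P, Continuous fun y : P → ℝ => b (y v) := fun v =>
    cont_b.comp (continuous_apply v)
  have hcv : ∀ v : P, Continuous fun y : P → ℝ => y v := fun v => continuous_apply v
  -- the invariant functions
  have hpow : (2 : ℝ) ^ Fintype.card P ≠ 0 := by positivity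
  have hcard : (Fintype.card P : ℝ) = n := rfl
  have Esym : ∀ Φ : (P → ℝ) → ℝ, Continuous Φ →
      (∀ (σ : Equiv.Perm P) (y : P → ℝ), Φ (fun v => y (σ v)) = Φ y) →
      (∀ (v : P) (y : P → ℝ), Φ (Function.update y v (-y v)) = Φ y) →
      E Φ = (∫ y in (Set.pi univ fun _ : P => Icc (-1 : ℝ) 1), Φ y) / 2 ^ Fintype.card P := by
    intro Φ h1 h2 h3
    rw [hE, hSYM P R Φ h1 h2 h3, ← hV]
    field_simp
  set B : (P → ℝ) → ℝ := fun y => ∑ v, b (y v) with hB
  have hBc : Continuous B := continuous_finsetSum _ fun v _ => hcb v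
  have hEB : E B = 0 := by
    rw [Esym B hBc (fun σ y => Equiv.sum_comp σ fun v => b (y v))
      (fun v y => sum_flip b (fun x => by unfold b; ring) v y), hB, cube_b, zero_div]
  have hEB2 : E (fun y => B y ^ 2) = 4 * n / 5 := by
    rw [Esym (fun y => B y ^ 2) (hBc.pow 2)
      (fun σ y => congrArg (· ^ 2) (Equiv.sum_comp σ fun v => b (y v)))
      (fun v y => congrArg (· ^ 2) (sum_flip b (fun x => by unfold b; ring) v y)), hB, cube_b2]
    rw [mul_div_assoc, mul_comm, div_mul_cancel₀]
    exact hpow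
  have hEg2 : E (fun y => ∑ v, g (y v) ^ 2) = 8 * n / 105 := by
    rw [Esym (fun y => ∑ v, g (y v) ^ 2) (continuous_finsetSum _ fun v _ => (hcg v).pow 2)
      (fun σ y => Equiv.sum_comp σ fun v => g (y v) ^ 2)
      (fun v y => sum_flip (fun x => g x ^ 2) (fun x => by unfold g; ring) v y), cube_g2]
    rw [mul_div_assoc, mul_comm, div_mul_cancel₀]
    exact hpow
  -- the means
  set a : P → ℝ := fun v => E (fun y => g (y v)) with ha
  set A2 : ℝ := ∑ v, a v ^ 2 with hA2
  have hA20 : 0 ≤ A2 := Finset.sum_nonneg fun v _ => sq_nonneg _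
  set A : (P → ℝ) → ℝ := fun y => ∑ v, a v * y v with hA
  have hAc : Continuous A := continuous_finsetSum _ fun v _ => continuous_const.mul (hcv v)
  have hI := hIBP P R a
  have hEAB : E (fun y => A y * B y) = -A2 := by
    have h1 : E (fun y => (∑ v, a v * g (y v)) + A y * B y) = 0 := by
      rw [hE]
      have : ∫ y in KK R, ((∑ v, a v * g (y v)) + A y * B y) = 0 := hI
      rw [this, zero_div]
    rw [Eadd (fun y => ∑ v, a v * g (y v)) (fun y => A y * B y)
        (continuous_finsetSum _ fun v _ => continuous_const.mul (hcg v)) (hAc.mul hBc),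
      Esum (fun v y => a v * g (y v)) (fun v => continuous_const.mul (hcg v))] at h1
    have h2 : ∑ v, E (fun y => a v * g (y v)) = A2 := by
      rw [hA2]
      refine Finset.sum_congr rfl fun v _ => ?_
      rw [Emul, sq]
    rw [h2] at h1
    linarith
  -- variance bound
  have hvar : ∀ θ : P → ℝ, E (fun y => (∑ v, θ v * y v) ^ 2) - (E fun y => ∑ v, θ v * y v) ^ 2 ≤
      s * ∑ v, θ v ^ 2 := by
    intro θ
    rw [hE, hE]
    exact hs θ
  set m : ℝ := E A with hm
  have hquad : ∀ t : ℝ, 0 ≤ s * A2 - 2 * t * A2 + t ^ 2 * (4 * n / 5) := by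
    intro t
    have h1 : (0 : ℝ) ≤ E (fun y => (A y - m + t * B y) ^ 2) := by
      have := Emono (fun _ => 0) (fun y => (A y - m + t * B y) ^ 2) continuous_const
        (((hAc.sub continuous_const).add (continuous_const.mul hBc)).pow 2)
        (fun y _ => sq_nonneg _)
      rwa [Econst] at this
    have h2 : E (fun y => (A y - m + t * B y) ^ 2) =
        E (fun y => A y ^ 2) - m ^ 2 + 2 * t * (-A2) + t ^ 2 * (4 * n / 5) := by
      have h3 : (fun y => (A y - m + t * B y) ^ 2) = fun y =>
          ((A y ^ 2 + (-(2 * m)) * A y) + (2 * t) * (A y * B y)) +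
            ((-(2 * t * m)) * B y + (t ^ 2 * B y ^ 2 + m ^ 2)) := by
        funext y
        ring
      rw [h3, Eadd (fun y => (A y ^ 2 + (-(2 * m)) * A y) + (2 * t) * (A y * B y))
          (fun y => (-(2 * t * m)) * B y + (t ^ 2 * B y ^ 2 + m ^ 2))
          (((hAc.pow 2).add (continuous_const.mul hAc)).add
          (continuous_const.mul (hAc.mul hBc)))
          ((continuous_const.mul hBc).add ((continuous_const.mul (hBc.pow 2)).add
            continuous_const)),
        Eadd (fun y => A y ^ 2 + (-(2 * m)) * A y) (fun y => (2 * t) * (A y * B y))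
          ((hAc.pow 2).add (continuous_const.mul hAc)) (continuous_const.mul (hAc.mul hBc)),
        Eadd (fun y => A y ^ 2) (fun y => (-(2 * m)) * A y) (hAc.pow 2) (continuous_const.mul hAc),
        Eadd (fun y => (-(2 * t * m)) * B y) (fun y => t ^ 2 * B y ^ 2 + m ^ 2)
          (continuous_const.mul hBc) ((continuous_const.mul (hBc.pow 2)).add
            continuous_const),
        Eadd (fun y => t ^ 2 * B y ^ 2) (fun _ => m ^ 2)
          (continuous_const.mul (hBc.pow 2)) continuous_const,
        Emul, Emul (2 * t) (fun y => A y * B y), Emul, Emul (t ^ 2) (fun y => B y ^ 2), Econst,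
        hEB2, hEAB]
      change _ + -(2 * m) * m + _ + (-(2 * t * m) * E B + _) = _
      rw [hEB]
      ring
    have h4 := hvar a
    change E (fun y => A y ^ 2) - m ^ 2 ≤ s * A2 at h4
    rw [h2] at h1
    linarith
  -- s ≥ 0
  have hvar1 : ∀ v : P, E (fun y => y v ^ 2) - (E fun y => y v) ^ 2 ≤ s := by
    intro v
    have h1 := hvar (Pi.single v 1)
    have h2 : ∀ y : P → ℝ, ∑ w, (Pi.single v 1 : P → ℝ) w * y w = y v := by
      intro y
      rw [Finset.sum_eq_single v]
      · simp
      · intro w _ hw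
        simp [hw]
      · intro h
        exact absurd (Finset.mem_univ v) h
    have h3 : ∑ w, (Pi.single v 1 : P → ℝ) w ^ 2 = 1 := by
      rw [Finset.sum_eq_single v]
      · simp
      · intro w _ hw
        simp [hw]
      · intro h
        exact absurd (Finset.mem_univ v) h
    simp only [h2, h3, mul_one] at h1
    exact h1
  have hcentre : ∀ (f : (P → ℝ) → ℝ) (c : ℝ), Continuous f →
      E (fun y => (f y - c) ^ 2) = E (fun y => f y ^ 2) - 2 * c * E f + c ^ 2 := by
    intro f c hf
    have h3 : (fun y => (f y - c) ^ 2) = fun y => (f y ^ 2 + (-(2 * c)) * f y) + c ^ 2 := by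
      funext y
      ring
    rw [h3, Eadd (fun y => f y ^ 2 + (-(2 * c)) * f y) (fun _ => c ^ 2)
        ((hf.pow 2).add (continuous_const.mul hf)) continuous_const,
      Eadd (fun y => f y ^ 2) (fun y => (-(2 * c)) * f y) (hf.pow 2) (continuous_const.mul hf),
      Emul, Econst]
    ring
  have hs0 : 0 ≤ s := by
    obtain ⟨v⟩ := ‹Nonempty P›
    have h1 := hcentre (fun y => y v) (E fun y => y v) (hcv v)
    have h2 : (0 : ℝ) ≤ E (fun y => (y v - E fun y => y v) ^ 2) := by
      have := Emono (fun _ => 0) (fun y => (y v - E fun y => y v) ^ 2) continuous_const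
        (((hcv v).sub continuous_const).pow 2) (fun y _ => sq_nonneg _)
      rwa [Econst] at this
    have h3 := hvar1 v
    rw [h1] at h2
    nlinarith
  have hA2s : A2 ≤ 4 * n * s / 5 := by
    rcases eq_or_lt_of_le hA20 with h | h
    · rw [← h]; positivity
    · have h1 := hquad (5 * A2 / (4 * n))
      have h2 : s * A2 - 2 * (5 * A2 / (4 * n)) * A2 + (5 * A2 / (4 * n)) ^ 2 * (4 * n / 5) =
          A2 * (s - 5 * A2 / (4 * n)) := by
        field_simp
        ring
      rw [h2] at h1
      have h3 : 0 ≤ s - 5 * A2 / (4 * n) := by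
        by_contra hc
        push Not at hc
        have := mul_neg_of_pos_of_neg h hc
        linarith
      have h4 : 5 * A2 / (4 * n) ≤ s := by linarith
      rw [div_le_iff₀ (by positivity)] at h4
      linarith
  -- variance of g
  have hvg : ∀ v : P, E (fun y => g (y v) ^ 2) ≤ 4 * s + a v ^ 2 := by
    intro v
    set mv : ℝ := E fun y => y v with hmv
    have hmv1 : -1 ≤ mv ∧ mv ≤ 1 := by
      constructor
      · have := Emono (fun _ => -1) (fun y => y v) continuous_const (hcv v)
          (fun y hy => (hy.1 v).1)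
        rwa [Econst] at this
      · have := Emono (fun y => y v) (fun _ => 1) (hcv v) continuous_const
          (fun y hy => (hy.1 v).2)
        rwa [Econst] at this
    have h1 : E (fun y => (g (y v) - g mv) ^ 2) ≤ E (fun y => 4 * (y v - mv) ^ 2) :=
      Emono _ _ (((hcg v).sub continuous_const).pow 2)
        (continuous_const.mul (((hcv v).sub continuous_const).pow 2))
        (fun y hy => g_lip (hy.1 v) hmv1)
    rw [Emul, hcentre (fun y => g (y v)) (g mv) (hcg v), hcentre (fun y => y v) mv (hcv v)] at h1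
    have h2 := hvar1 v
    have h3 : E (fun y => g (y v)) = a v := rfl
    rw [h3] at h1
    nlinarith [sq_nonneg (a v - g mv)]
  have hfin : 8 * n / 105 ≤ 4 * n * s + A2 := by
    rw [← hEg2, Esum (fun v y => g (y v) ^ 2) (fun v => (hcg v).pow 2)]
    refine (Finset.sum_le_sum fun v _ => hvg v).trans ?_
    rw [Finset.sum_add_distrib, Finset.sum_const, Finset.card_univ, nsmul_eq_mul, hcard]
    linarith
  have h1 : 8 * n / 105 ≤ 4 * n * s + 4 * n * s / 5 := by linarith
  have h2 : n * (8 / 105) ≤ n * (24 / 5 * s) := by linarith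
  have h3 := le_of_mul_le_mul_left h2 hn0
  linarith

end Run7.h67.KF
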