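import Pool.Agent.Run7.h523.KF.Iface

/-!
# KF: basic facts on the polytope `KK R` (helper67)
-/

set_option autoImplicit false

namespace Run7.h67.KF

open Run7.h523.KF MeasureTheory Set Filter Topology

theorem continuous_sv {P : Type} (a : P × Bool) : Continuous fun y : P → ℝ => sv y a := by
  unfold sv
  split_ifs
  · exact continuous_apply _
  · exact (continuous_apply _).neg

theorem KK_closed {P : Type} (R : P × Bool → P × Bool → Prop) : IsClosed (KK R) := by
  have : KK R = (⋂ v, {y : P → ℝ | -1 ≤ y v ∧ y v ≤ 1}) ∩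
      ⋂ a, ⋂ b, ⋂ (_ : R a b), {y | sv y a ≤ sv y b} := by
    ext y
    simp [KK]
  rw [this]
  refine IsClosed.inter (isClosed_iInter fun v => ?_) (isClosed_iInter fun a =>
    isClosed_iInter fun b => isClosed_iInter fun _ => isClosed_le (continuous_sv a) (continuous_sv b))
  exact (isClosed_le continuous_const (continuous_apply v)).inter
    (isClosed_le (continuous_apply v) continuous_const)

theorem KK_sub {P : Type} (R : P × Bool → P × Bool → Prop) :
    KK R ⊆ Set.pi univ fun _ : P => Icc (-1 : ℝ) 1 := fun _ hy v _ => hy.1 v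

theorem KK_compact {P : Type} (R : P × Bool → P × Bool → Prop) : IsCompact (KK R) :=
  (isCompact_univ_pi fun _ => isCompact_Icc).of_isClosed_subset (KK_closed R) (KK_sub R)

theorem KK_meas {P : Type} [Fintype P] (R : P × Bool → P × Bool → Prop) :
    MeasurableSet (KK R) := (KK_closed R).measurableSet

theorem KK_vol_lt {P : Type} [Fintype P] (R : P × Bool → P × Bool → Prop) :
    volume (KK R) < ⊤ := (KK_compact R).measure_lt_top

theorem intK {P : Type} [Fintype P] (R : P × Bool → P × Bool → Prop) {G : (P → ℝ) → ℝ}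
    (hG : Continuous G) : IntegrableOn G (KK R) :=
  hG.continuousOn.integrableOn_compact (KK_compact R)

theorem sv_abs_le {P : Type} {y : P → ℝ} (hy : ∀ v, -1 ≤ y v ∧ y v ≤ 1) (a : P × Bool) :
    -1 ≤ sv y a ∧ sv y a ≤ 1 := by
  unfold sv
  split_ifs
  · exact hy _
  · have := hy a.1
    constructor <;> linarith

end Run7.h67.KF
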